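import Pool.Agent.Helper51.UL.Fin
import Pool.Graph.R_pool_sql_team_seeded_1acbe0a2.Y677.KU.LinIcc

set_option autoImplicit false

/-!
# Oppermann intervals: homothetic copies of every finite pattern, at almost every point of every dense set

For every large `n`, in both intervals `(n² - n, n²)` and `(n², n² + n)`: let `A` be an ARBITRARY set of integers of the interval
without prime factors `≤ n ^ θ` (for instance any set of primes), and let `T` be an ARBITRARY set of at most `k` integers in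
`[-H, H]`. Then for all but at most `δ n / log n` of the members `m` of `A` the set `m + d T` is contained in `A` for at least
`D ^ (1 - ε)` of the dilations `d ≤ D`. Here `D` and `H` are arbitrary with `(log n) ^ B ≤ D`, `H ^ ε ≤ D`,
`D H ≤ n ^ (1 - ε)`. For a positive proportion (in order of magnitude) of the numbers of each of the two intervals with at most
three prime factors this gives the copies consisting of numbers with at most three prime factors.
-/

namespace Pool.Agent.Results.MP_a8fbd7_nt.HomotheticOppermann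

open Finset Filter

/-- The open interval `(n ^ 2 - n, n ^ 2)`. -/
def Lo (n : ℕ) : Set ℕ := Set.Ioo (n ^ 2 - n) (n ^ 2)

/-- The open interval `(n ^ 2, n ^ 2 + n)`. -/
def Hi (n : ℕ) : Set ℕ := Set.Ioo (n ^ 2) (n ^ 2 + n)

/-- The `m` with at most `r` prime factors, all larger than `m ^ (1 / (3 r + 1))`. -/
def P (r : ℕ) : Set ℕ :=
  {m | (∀ p : ℕ, p.Prime → p ∣ m → (m : ℝ) ^ (1 / ((3 * r + 1 : ℕ) : ℝ)) < (p : ℝ)) ∧
    m.primeFactorsList.length ≤ r}

/-- The number of the dilations `1 ≤ d ≤ D` for which all the numbers `m + d t`, `t ∈ T`, belong to `A`. -/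
noncomputable def scales (A : Set ℕ) (T : Finset ℤ) (D m : ℕ) : ℕ :=
  {d : ℕ | 1 ≤ d ∧ d ≤ D ∧ ∀ t ∈ T, ∃ a ∈ A, (a : ℤ) = m + d * t}.ncard

/-- the form for arbitrary sets, with the shift `u` -/
theorem gen (k : ℕ) (ε θ δ : ℝ) (hε : 0 < ε) (hε1 : ε < 1) (hθ : 0 < θ) (hδ : 0 < δ) :
    ∃ B : ℕ, ∀ n H D : ℕ, B ≤ n → 1 ≤ H → Real.log n ^ B ≤ D → (H : ℝ) ^ ε ≤ D →
      (D : ℝ) * H ≤ (n : ℝ) ^ (1 - ε) → ∀ I : Set ℕ, I = Lo n ∨ I = Hi n →
      ∀ A ⊆ I, (∀ m ∈ A, ∀ q : ℕ, q.Prime → q ∣ m → (n : ℝ) ^ θ < q) →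
      ∀ T : Finset ℤ, T.card ≤ k → (∀ t ∈ T, |t| ≤ H) →
        ({m : ℕ | m ∈ A ∧ (scales A T D m : ℝ) < (D : ℝ) ^ (1 - ε)}.ncard : ℝ) ≤
          δ * (n / Real.log n) := by
  obtain ⟨B, hB⟩ := Pool.Agent.Helper51.UL.ptSet (κ := 1) (fun _ => 1) (fun _ => 0) (fun _ => le_rfl)
    (fun i j hij => absurd (Subsingleton.elim i j) hij) 3 k ε θ δ hε hε1 hθ hδ
  refine ⟨B + 1, fun n H D hn hH hBD hHD hDn I hI A hA hAr T hTk hT => ?_⟩
  have hn1 : 1 ≤ n := by omega
  have hlog : Real.log n ^ B ≤ D := by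
    by_cases hl : (1 : ℝ) ≤ Real.log n
    · exact (pow_le_pow_right₀ hl (Nat.le_succ B)).trans hBD
    · have h1 : Real.log n ^ B ≤ 1 :=
        pow_le_one₀ (Real.log_natCast_nonneg n) (not_le.1 hl).le
      have h2 : (1 : ℝ) ≤ (H : ℝ) ^ ε :=
        Real.one_le_rpow (by exact_mod_cast hH) hε.le
      linarith
  have hsq : n ^ 2 = n * n := sq n
  have hcu : n ^ 3 = n * n * n := by ring
  have hle : n ^ 2 ≤ n ^ 3 := Nat.pow_le_pow_right hn1 (by norm_num)
  have hsub : n ≤ n ^ 2 := by nlinarith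
  obtain ⟨u, hu, hu2⟩ : ∃ u : ℕ, u ≤ n ^ 3 ∧ ∀ m ∈ I, u < m ∧ m ≤ u + n := by
    rcases hI with rfl | rfl
    · refine ⟨n ^ 2 - n, by omega, fun m hm => ⟨hm.1, ?_⟩⟩
      have := hm.2
      omega
    · exact ⟨n ^ 2, hle, fun m hm => ⟨hm.1, hm.2.le⟩⟩
  have h1 := hB n H D u (by omega) hu hH hlog hHD hDn A (fun m hm =>
    ⟨(hu2 m (hA hm)).1, (hu2 m (hA hm)).2, fun i q hq hqd => hAr m hm q hq (by
      simpa [← Int.natCast_dvd_natCast] using hqd)⟩) T hTk hT
  rw [pow_one] at h1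
  exact h1

/-- **Homothetic copies of every finite pattern in both Oppermann intervals.** -/
theorem result :
    (∀ (k : ℕ) (ε θ δ : ℝ), 0 < ε → ε < 1 → 0 < θ → 0 < δ → ∃ B : ℕ, ∀ n H D : ℕ, B ≤ n →
      1 ≤ H → Real.log n ^ B ≤ D → (H : ℝ) ^ ε ≤ D → (D : ℝ) * H ≤ (n : ℝ) ^ (1 - ε) →
      ∀ I : Set ℕ, I = Lo n ∨ I = Hi n →
      ∀ A ⊆ I, (∀ m ∈ A, ∀ q : ℕ, q.Prime → q ∣ m → (n : ℝ) ^ θ < q) →
      ∀ T : Finset ℤ, T.card ≤ k → (∀ t ∈ T, |t| ≤ H) →
        ({m : ℕ | m ∈ A ∧ (scales A T D m : ℝ) < (D : ℝ) ^ (1 - ε)}.ncard : ℝ) ≤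
          δ * (n / Real.log n)) ∧
    ∀ r : ℕ, 3 ≤ r → (∀ p : ℕ, p.Prime → p ∈ P r) ∧ ∃ c : ℝ, 0 < c ∧
      ∀ (k : ℕ) (ε : ℝ), 0 < ε → ε < 1 → ∃ B : ℕ, ∀ n H D : ℕ, B ≤ n →
      1 ≤ H → Real.log n ^ B ≤ D → (H : ℝ) ^ ε ≤ D → (D : ℝ) * H ≤ (n : ℝ) ^ (1 - ε) →
      ∀ I : Set ℕ, I = Lo n ∨ I = Hi n →
      ∀ T : Finset ℤ, T.card ≤ k → (∀ t ∈ T, |t| ≤ H) →
        c * (n / Real.log n) ≤ ({m : ℕ | m ∈ P r ∩ I ∧
          (D : ℝ) ^ (1 - ε) ≤ (scales (P r ∩ I) T D m : ℝ)}.ncard : ℝ) := by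
  refine ⟨fun k ε θ δ hε hε1 hθ hδ => gen k ε θ δ hε hε1 hθ hδ, fun r hr => ⟨fun p hp => ?_, ?_⟩⟩
  · have h := Pool.Agent.Y677.KU.prime_mem_P 1 0 r p (by omega) hp Nat.modEq_one
    exact ⟨h.1.2, h.2⟩
  · have hr3 : (3 : ℝ) ≤ r := by exact_mod_cast hr
    obtain ⟨κ, hκ, h⟩ := Pool.Agent.Y677.KU.icc_lower r (1 / 2) (by omega)
      (by rw [div_lt_div_iff₀ (by positivity) (by norm_num)]; linarith) (by norm_num)
    refine ⟨κ / 8, by positivity, fun k ε hε hε1 => ?_⟩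
    obtain ⟨B, hB⟩ := gen k ε (1 / ((3 * r + 1 : ℕ) : ℝ)) (κ / 8) hε hε1 (by positivity)
      (by positivity)
    obtain ⟨X₀, hX₀⟩ := eventually_atTop.1 h
    have hlog := Real.tendsto_log_atTop.comp (tendsto_natCast_atTop_atTop (R := ℝ))
    have hdiv : Tendsto (fun n : ℕ => (n : ℝ) / Real.log n) atTop atTop := by
      have h1 : Tendsto (fun x : ℝ => x / Real.log x) atTop atTop := by
        have h2 := Real.isLittleO_log_id_atTop
        have h3 := h2.tendsto_div_nhds_zero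
        have h4 : Tendsto (fun x : ℝ => (Real.log x / x)⁻¹) atTop atTop := by
          apply Tendsto.inv_tendsto_nhdsGT_zero
          rw [tendsto_nhdsWithin_iff]
          refine ⟨h3, ?_⟩
          filter_upwards [eventually_gt_atTop (1 : ℝ)] with x hx
          exact div_pos (Real.log_pos hx) (by linarith)
        refine h4.congr fun x => ?_
        rw [inv_div]
      exact h1.comp (tendsto_natCast_atTop_atTop (R := ℝ))
    obtain ⟨X₁, hX₁⟩ := eventually_atTop.1 ((hlog.eventually_ge_atTop 2).and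
      (hdiv.eventually_ge_atTop (8 * 2 / κ)))
    refine ⟨max B (max (X₀ + 3) X₁), fun n H D hn hH hBD hHD hDn I hI T hTk hT => ?_⟩
    have hnB : B ≤ n := (le_max_left _ _).trans hn
    have hnX0 : X₀ + 3 ≤ n := ((le_max_left _ _).trans (le_max_right _ _)).trans hn
    have hnX1 : X₁ ≤ n := ((le_max_right _ _).trans (le_max_right _ _)).trans hn
    obtain ⟨hl2, hbig⟩ := hX₁ n hnX1
    simp only [Function.comp] at hl2
    have hn3 : 3 ≤ n := by omega
    have hn3r : (3 : ℝ) ≤ n := by exact_mod_cast hn3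
    have hn0 : (0 : ℝ) < n := by linarith
    have hsq : n ^ 2 = n * n := sq n
    have h1 : 2 * n ≤ n ^ 2 := by nlinarith
    have h1' : 3 * n ≤ n ^ 2 := by nlinarith
    -- the counts in the closed intervals
    have hcard : ∀ x : ℕ, X₀ ≤ x → n ≤ x → x ≤ n ^ 2 → 
        κ / 2 * (n / Real.log n) ≤ ((Pool.Agent.Y677.KU.Pl 1 0 r ∩ Set.Icc x (x + n)).ncard : ℝ) := by
      intro x hx0 hnx hxn
      have hx0r : (0 : ℝ) < x := by
        have : 0 < x := by omega
        exact_mod_cast this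
      have e1 : ((1 : ℕ) : ℝ) * (x : ℝ) ^ (1 / 2 : ℝ) ≤ n := by
        rw [Nat.cast_one, one_mul, ← Real.sqrt_eq_rpow]
        apply Real.sqrt_le_iff.2
        refine ⟨hn0.le, ?_⟩
        exact_mod_cast hxn
      have e2 := hX₀ x hx0 1 0 n le_rfl (Nat.coprime_one_right 0) e1 hnx
      refine le_trans ?_ e2
      rw [Nat.totient_one, Nat.cast_one, one_mul, ← mul_div_assoc]
      have e3 : Real.log x ≤ 2 * Real.log n := by
        have : Real.log x ≤ Real.log ((n ^ 2 : ℕ) : ℝ) :=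
          Real.log_le_log hx0r (by exact_mod_cast hxn)
        rw [Nat.cast_pow, Real.log_pow] at this
        norm_num at this
        exact this
      have e4 : 0 < Real.log x := Real.log_pos (by
        have : (n : ℝ) ≤ x := by exact_mod_cast hnx
        linarith)
      rw [div_le_div_iff₀ (by linarith) e4]
      have e5 : 0 ≤ κ * n := by positivity
      nlinarith
    obtain ⟨x, hxX, hnx, hxn, hIx⟩ : ∃ x : ℕ, X₀ ≤ x ∧ n ≤ x ∧ x ≤ n ^ 2 ∧ 
        I = Set.Ioo x (x + n) := by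
      rcases hI with rfl | rfl
      · refine ⟨n ^ 2 - n, by omega, by omega, by omega, ?_⟩
        unfold Lo
        rw [Nat.sub_add_cancel (by omega)]
      · exact ⟨n ^ 2, by nlinarith, by nlinarith, le_rfl, rfl⟩
    have hc1 := hcard x hxX hnx hxn
    have hPeq : Pool.Agent.Y677.KU.Pl 1 0 r = P r := by
      ext m
      constructor
      · intro h
        exact ⟨h.1.2, h.2⟩
      · intro h
        exact ⟨⟨Nat.modEq_one, h.1⟩, h.2⟩
    rw [hPeq] at hc1
    have hfinA : (P r ∩ I).Finite := by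
      rw [hIx]
      exact (Set.finite_Ioo _ _).subset Set.inter_subset_right
    have hc2 : (P r ∩ Set.Icc x (x + n)).ncard ≤ (P r ∩ I).ncard + 2 := by
      have hsub : P r ∩ Set.Icc x (x + n) ⊆ (P r ∩ I) ∪ {x, x + n} := by
        rintro m ⟨hm1, hm2, hm3⟩
        by_cases h5 : m = x
        · right; left; exact h5
        · by_cases h6 : m = x + n
          · right; right; exact h6
          · left
            rw [hIx]
            exact ⟨hm1, by omega, by omega⟩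
      refine (Set.ncard_le_ncard hsub (hfinA.union (Set.toFinite _))).trans
        ((Set.ncard_union_le _ _).trans ?_)
      have e7 := Set.ncard_insert_le x ({x + n} : Set ℕ)
      rw [Set.ncard_singleton] at e7
      omega
    have hc2r : ((P r ∩ Set.Icc x (x + n)).ncard : ℝ) ≤ ((P r ∩ I).ncard : ℝ) + 2 := by
      exact_mod_cast hc2
    have hBD' : Real.log n ^ B ≤ D :=
      (pow_le_pow_right₀ (by linarith) (le_max_left _ _)).trans hBD
    have hbad := hB n H D hnB hH hBD' hHD hDn I hI (P r ∩ I) Set.inter_subset_right (by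
      intro m hm q hq hqd
      refine lt_of_le_of_lt ?_ (hm.1.1 q hq hqd)
      have hmn : n ≤ m := by
        have := hm.2
        rw [hIx] at this
        have := this.1
        omega
      exact Real.rpow_le_rpow hn0.le (by exact_mod_cast hmn) (by positivity)) T hTk hT
    have hsub2 : P r ∩ I ⊆ {m : ℕ | m ∈ P r ∩ I ∧
          (D : ℝ) ^ (1 - ε) ≤ (scales (P r ∩ I) T D m : ℝ)} ∪
        {m : ℕ | m ∈ P r ∩ I ∧ (scales (P r ∩ I) T D m : ℝ) < (D : ℝ) ^ (1 - ε)} := by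
      intro m hm
      by_cases h5 : (D : ℝ) ^ (1 - ε) ≤ (scales (P r ∩ I) T D m : ℝ)
      · exact Or.inl ⟨hm, h5⟩
      · exact Or.inr ⟨hm, not_le.1 h5⟩
    have hc3 := (Set.ncard_le_ncard hsub2 ((hfinA.subset fun m hm => hm.1).union
      (hfinA.subset fun m hm => hm.1))).trans (Set.ncard_union_le _ _)
    have hc3r : ((P r ∩ I).ncard : ℝ) ≤ ({m : ℕ | m ∈ P r ∩ I ∧
          (D : ℝ) ^ (1 - ε) ≤ (scales (P r ∩ I) T D m : ℝ)}.ncard : ℝ) +
        ({m : ℕ | m ∈ P r ∩ I ∧ (scales (P r ∩ I) T D m : ℝ) < (D : ℝ) ^ (1 - ε)}.ncard : ℝ) := by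
      exact_mod_cast hc3
    have h8 : 2 ≤ κ / 8 * (n / Real.log n) := by
      have := mul_le_mul_of_nonneg_left hbig (show (0 : ℝ) ≤ κ / 8 by positivity)
      calc (2 : ℝ) = κ / 8 * (8 * 2 / κ) := by field_simp
        _ ≤ _ := this
    nlinarith

end Pool.Agent.Results.MP_a8fbd7_nt.HomotheticOppermann
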