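import Mathlib
import Pool.Agent.Helper34.OP.C6

/-!
# Both parities in all parts of both Oppermann intervals, for all but `O(log x)` integers `n ≤ x`

A prime number has an odd number of prime factors. Matomäki and Radziwiłł proved that for a large constant `C` every
interval `(y, y + C √y]` contains integers with an odd number and integers with an even number of prime factors; this says
nothing about the Oppermann intervals `(n ^ 2 - n, n ^ 2)`, `(n ^ 2, n ^ 2 + n)`, which have length `n`, and about their parts.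
We show that for every `κ > 0` the exceptions are extremely rare: for all but `O(κ ^ (-4) log x)` of the `n ≤ x` every interval
of length at least `κ n` inside `[n ^ 2 - n, n ^ 2 + n]`, in particular each of the two Oppermann intervals, contains at least
`c n κ / (log n) ^ 2` integers of each parity. In general, of the disjoint windows of length `H ≤ √Y` in `[Y, 9 Y]` at most
`C (Y / H ^ 2) ^ 2` contain fewer than `c H / (log Y) ^ 2` integers of one of the parities; for `H = κ √Y` this is a bounded number.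

Method. For a window `(y, y + H]` and `q` in `(Q, 2 Q]`, `Q` a small multiple of `H`, the multiples of `q` in the window
correspond to a run of length `H / q` next to `y / q`. For an arbitrary set of `N = s ^ 2` windows, `s ≥ Y / (H Q)`, the runs are
distributed evenly: the number of the quadruples of two windows and two divisors `q`, `r` whose runs have a common
point is of the expected size, because the slopes `q / r` of the pairs with given greatest common divisor are well spaced; the pairs
with a large common divisor are counted by means of the distance of the windows. So the theorem of Matomäki and Radziwiłł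
about almost all short windows of bounded length (starting files) applies to most of the runs of at least one of the
windows, and there are few windows in which it does not. Integers with more than `K log Y` divisors are removed.
-/

set_option autoImplicit false

namespace Pool.Agent.Results.MP_a8fbd7_nt.ParityAllButLog
open Finset

/-- The number of the integers `m` with `u < m ≤ u + h` for which `Ω(m)`, the number of the prime factors of `m` with
multiplicity, is congruent to `σ` modulo 2. -/
def count (u h σ : ℕ) : ℕ := ((Ioc u (u + h)).filter (fun m => ArithmeticFunction.cardFactors m % 2 = σ)).card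

/-- There are absolute constants `C`, `c > 0` such that:

1. For all real `0 < κ ≤ 1` and all integers `x ≥ 2`: for all but at most `C κ ^ (-4) log x` of the integers `2 ≤ n ≤ x`
EVERY interval `(u, u + h]` of length `h ≥ κ n` with `n ^ 2 - n ≤ u` and `u + h ≤ n ^ 2 + n` contains at least `c h / (log n) ^ 2`
integers with an even and at least `c h / (log n) ^ 2` integers with an odd number of prime factors.

2. For all integers `1 ≤ H ≤ X`, `X ≥ 2`: for all but at most `C (X / H) ^ 4` of the integers `n` in `(X, 2 X]` every interval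
`(u, u + h]` of length `h ≥ H` with `n ^ 2 - n ≤ u` and `u + h ≤ n ^ 2 + n` contains at least `c h / (log X) ^ 2` integers of each
parity.

3. For all integers `Y ≥ 2`, `H ≥ 1` with `H ^ 2 ≤ Y`: if `B` is a set of integers in `[Y, 9 Y]` with distances at least `H`
such that each window `(y, y + H]`, `y ∈ B`, contains fewer than `c H / (log Y) ^ 2` integers of one of the parities, then `B` has
at most `C (Y / H ^ 2) ^ 2` elements. -/
theorem result : ∃ C c : ℝ, 0 < C ∧ 0 < c ∧
    (∀ κ : ℝ, 0 < κ → κ ≤ 1 → ∀ x : ℕ, 2 ≤ x →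
      (Nat.card {n : ℕ | 2 ≤ n ∧ n ≤ x ∧ ∃ u h σ : ℕ, κ * n ≤ h ∧ n ^ 2 - n ≤ u ∧ u + h ≤ n ^ 2 + n ∧ σ < 2 ∧
        (count u h σ : ℝ) < c * h / (Real.log n) ^ 2} : ℝ) ≤ C / κ ^ 4 * Real.log x) ∧
    (∀ X H : ℕ, 2 ≤ X → 1 ≤ H → H ≤ X →
      (Nat.card {n : ℕ | X < n ∧ n ≤ 2 * X ∧ ∃ u h σ : ℕ, H ≤ h ∧ n ^ 2 - n ≤ u ∧ u + h ≤ n ^ 2 + n ∧ σ < 2 ∧
        (count u h σ : ℝ) < c * h / (Real.log X) ^ 2} : ℝ) ≤ C * ((X : ℝ) / H) ^ 4) ∧
    (∀ Y H : ℕ, 2 ≤ Y → 1 ≤ H → H ^ 2 ≤ Y → ∀ B : Finset ℕ, (∀ y ∈ B, Y ≤ y ∧ y ≤ 9 * Y) →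
      (∀ x ∈ B, ∀ y ∈ B, x < y → x + H ≤ y) →
      (∀ y ∈ B, ∃ σ < 2, (count y H σ : ℝ) < c * H / (Real.log Y) ^ 2) → (B.card : ℝ) ≤ C * ((Y : ℝ) / H ^ 2) ^ 2) := by
  classical
  obtain ⟨C, c, hC, hc, hg⟩ := Pool.Agent.Helper34.OP.general
  have hb := Pool.Agent.Helper34.OP.block hc hg
  have hu := Pool.Agent.Helper34.OP.upto hC (by positivity : 0 < c / 8) hb
  refine ⟨4 * C, c / 8, by linarith, by positivity, ?_, ?_, ?_⟩
  · intro κ hκ hκ1 x hx
    refine le_trans (le_of_eq ?_) (hu κ hκ hκ1 x hx)
    rw [Nat.cast_inj, ← Nat.card_eq_finsetCard]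
    have : {n : ℕ | 2 ≤ n ∧ n ≤ x ∧ ∃ u h σ : ℕ, κ * n ≤ h ∧ n ^ 2 - n ≤ u ∧ u + h ≤ n ^ 2 + n ∧ σ < 2 ∧
        (count u h σ : ℝ) < c / 8 * h / (Real.log n) ^ 2} = ((Pool.Agent.Helper34.OP.badx x κ (c / 8) : Finset ℕ) : Set ℕ) := by
      ext n
      rw [mem_coe, Pool.Agent.Helper34.OP.mem_badx, Set.mem_ofPred_eq]
      constructor
      · rintro ⟨h1, h2, u, h, σ, h3, h4, h5, h6, h7⟩
        exact ⟨⟨h1, h2⟩, u, h, h3, h4, h5, σ, h6, by rw [div_mul_eq_mul_div]; exact h7⟩
      · rintro ⟨⟨h1, h2⟩, u, h, h3, h4, h5, σ, h6, h7⟩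
        refine ⟨h1, h2, u, h, σ, h3, h4, h5, h6, ?_⟩
        rw [div_mul_eq_mul_div] at h7
        exact h7
    rw [this]
    rfl
  · intro X H hX hH hHX
    have h0 : (Nat.card {n : ℕ | X < n ∧ n ≤ 2 * X ∧ ∃ u h σ : ℕ, H ≤ h ∧ n ^ 2 - n ≤ u ∧ u + h ≤ n ^ 2 + n ∧ σ < 2 ∧
        (count u h σ : ℝ) < c / 8 * h / (Real.log X) ^ 2} : ℝ) =
        ((Pool.Agent.Helper34.OP.bad X H (c / 8 / (Real.log X) ^ 2)).card : ℝ) := by
      rw [Nat.cast_inj, ← Nat.card_eq_finsetCard]
      have : {n : ℕ | X < n ∧ n ≤ 2 * X ∧ ∃ u h σ : ℕ, H ≤ h ∧ n ^ 2 - n ≤ u ∧ u + h ≤ n ^ 2 + n ∧ σ < 2 ∧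
          (count u h σ : ℝ) < c / 8 * h / (Real.log X) ^ 2} =
            ((Pool.Agent.Helper34.OP.bad X H (c / 8 / (Real.log X) ^ 2) : Finset ℕ) : Set ℕ) := by
        ext n
        rw [mem_coe, Pool.Agent.Helper34.OP.mem_bad, Set.mem_ofPred_eq]
        constructor
        · rintro ⟨h1, h2, u, h, σ, h3, h4, h5, h6, h7⟩
          exact ⟨⟨h1, h2⟩, u, h, h3, h4, h5, σ, h6, by rw [div_mul_eq_mul_div]; exact h7⟩
        · rintro ⟨⟨h1, h2⟩, u, h, h3, h4, h5, σ, h6, h7⟩
          refine ⟨h1, h2, u, h, σ, h3, h4, h5, h6, ?_⟩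
          rw [div_mul_eq_mul_div] at h7
          exact h7
      rw [this]
      rfl
    rw [h0]
    refine (hb X H hX hH hHX).trans ?_
    apply mul_le_mul_of_nonneg_right _ (by positivity)
    linarith
  · intro Y H hY hH hHY B hB hsep hbad
    have hY0 : (2 : ℝ) ≤ Y := by exact_mod_cast hY
    have hl : 0 < Real.log Y := Real.log_pos (by linarith)
    refine (hg Y H hY hH hHY B hB ?_ ?_).trans ?_
    · intro x hx y hy hne
      rw [le_abs]
      rcases lt_or_gt_of_ne hne with h | h
      · right
        have := hsep x hx y hy h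
        omega
      · left
        have := hsep y hy x hx h
        omega
    · intro y hy
      obtain ⟨σ, hσ, h⟩ := hbad y hy
      refine ⟨σ, hσ, lt_of_lt_of_le h ?_⟩
      calc c / 8 * H / (Real.log Y) ^ 2 ≤ c * H / (Real.log Y) ^ 2 := by
            gcongr
            linarith
        _ = c / (Real.log Y) ^ 2 * H := by ring
    · apply mul_le_mul_of_nonneg_right _ (by positivity)
      linarith

end Pool.Agent.Results.MP_a8fbd7_nt.ParityAllButLog
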