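import Mathlib
import Pool.Agent.Helper34.EK.A
import Pool.Agent.Helper34.EK.B
import Pool.Agent.Helper34.EK.V4
import Pool.Agent.Helper34.EK.V5
import Pool.Agent.Helper34.EK.W2
import Pool.Agent.Helper34.EK.T

/-!
# Asymptotic formulas for products of three primes in all parts of both Oppermann intervals, with few exceptions

The problem asks for the asymptotic number of primes in `[n ^ 2 - n, n ^ 2]` and in `[n ^ 2, n ^ 2 + n]`. We prove
asymptotic formulas with the expected main term for the products of three primes `q a p`, `q` in `(X ^ α, X ^ β]`, `a` in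
`(X ^ γ, X ^ δ]`, `1 / 2 < α < β < 1`, `β + δ < 1`, in ALL intervals of length at least `κ n` contained in
`[n ^ 2 - n, n ^ 2 + n]`, in particular in both Oppermann intervals, for all but at most `X ^ (2 - 2 α + ε)` of the `n` in
`(X, 2 X]`; for `α` near `1` this is a very small power of `X`. In fact the products `q a p` have the expected number for all the
integers `q` of `(X ^ α, X ^ β]` simultaneously, in the mean, with an error `h / (log X) ^ K`.

Method. For a window `(y, y + H]` the products with a given `q` correspond to the products `a p` in the window of length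
`H / q` next to `y / q`. For an arbitrary set of `s ^ 2` windows, `s ≥ Y / (H Q)`, these short windows are distributed evenly
(a count of quadruples of two windows and two divisors), so that it is enough to know the number of the products `a p` in almost
all windows of length `Y ^ η a`, which is obtained with Parseval's identity and Vinogradov's zero free region.
-/

set_option autoImplicit false

namespace Pool.Agent.Results.MP_a8fbd7_nt.ThreePrimesAsymptotic
open Finset

/-- The primes `a` with `P < a ≤ R`. -/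
noncomputable def primes (P R : ℝ) : Finset ℕ := (Ioc ⌊P⌋₊ ⌊R⌋₊).filter Nat.Prime

/-- The sum of `log p` over the pairs of primes `a`, `p` with `P < a ≤ R` and `u < q a p ≤ u + h`. -/
noncomputable def psi (P R : ℝ) (u h q : ℕ) : ℝ :=
  ∑ a ∈ primes P R, ∑ p ∈ (Icc 1 (u + h)).filter (fun p => p.Prime ∧ u < q * a * p ∧ q * a * p ≤ u + h), Real.log p

/-- Let `1 / 2 < α < β`, `0 < γ < δ`, `β + δ < 1`, `κ > 0`, `ε > 0`.

1. For every `K` and all large `X`: for all but at most `X ^ (2 - 2 α + ε)` of the integers `n` in `(X, 2 X]` EVERY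
interval `(u, u + h]` of length `h ≥ κ n` with `n ^ 2 - n ≤ u` and `u + h ≤ n ^ 2 + n` satisfies
`∑_q |∑_{a, p} log p - (h / q) ∑_a 1 / a| ≤ h / (log X) ^ K`, where `q` runs over ALL the integers in `(X ^ α, X ^ β]`, `a` over
the primes in `(X ^ γ, X ^ δ]` and `p` over the primes with `u < q a p ≤ u + h`.

2. For every `τ > 0` and all large `X`: for all but at most `X ^ (2 - 2 α + ε)` of the integers `n` in `(X, 2 X]` EVERY
interval `(u, u + h]` of length `h ≥ κ n` with `n ^ 2 - n ≤ u` and `u + h ≤ n ^ 2 + n` satisfies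
`|∑_{q, a, p} log p - h log (β / α) log (δ / γ)| ≤ τ h`, where the sum runs over the triples of primes `q` in `(X ^ α, X ^ β]`,
`a` in `(X ^ γ, X ^ δ]`, `p` with `u < q a p ≤ u + h`. -/
theorem result :
    (∀ α β γ δ κ ε : ℝ, 1 / 2 < α → α < β → 0 < γ → γ < δ → β + δ < 1 → 0 < κ → 0 < ε → ∀ K : ℕ,
      ∃ X₀ : ℕ, ∀ X : ℕ, X₀ ≤ X →
        (Nat.card {n : ℕ | X < n ∧ n ≤ 2 * X ∧ ∃ u h : ℕ, κ * n ≤ h ∧ n ^ 2 - n ≤ u ∧ u + h ≤ n ^ 2 + n ∧
          (h : ℝ) / Real.log X ^ K < ∑ q ∈ Ioc ⌊(X : ℝ) ^ α⌋₊ ⌊(X : ℝ) ^ β⌋₊,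
            |psi ((X : ℝ) ^ γ) ((X : ℝ) ^ δ) u h q - h / q * ∑ a ∈ primes ((X : ℝ) ^ γ) ((X : ℝ) ^ δ), 1 / (a : ℝ)|} : ℝ) ≤
          (X : ℝ) ^ (2 - 2 * α + ε)) ∧
    (∀ α β γ δ κ ε : ℝ, 1 / 2 < α → α < β → 0 < γ → γ < δ → β + δ < 1 → 0 < κ → 0 < ε → ∀ τ : ℝ, 0 < τ →
      ∃ X₀ : ℕ, ∀ X : ℕ, X₀ ≤ X →
        (Nat.card {n : ℕ | X < n ∧ n ≤ 2 * X ∧ ∃ u h : ℕ, κ * n ≤ h ∧ n ^ 2 - n ≤ u ∧ u + h ≤ n ^ 2 + n ∧
          τ * h < |∑ q ∈ primes ((X : ℝ) ^ α) ((X : ℝ) ^ β), psi ((X : ℝ) ^ γ) ((X : ℝ) ^ δ) u h q -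
            h * (Real.log (β / α) * Real.log (δ / γ))|} : ℝ) ≤ (X : ℝ) ^ (2 - 2 * α + ε)) := by
  have h := Pool.Agent.Helper34.EK.t1
    (Pool.Agent.Helper34.EK.w (Pool.Agent.Helper34.EK.v' (Pool.Agent.Helper34.EK.v Pool.Agent.Helper34.EK.a1
      Pool.Agent.Helper34.EK.a2 Pool.Agent.Helper34.EK.b)))
  have h2 := Pool.Agent.Helper34.EK.t2 h
  exact ⟨h, h2⟩

end Pool.Agent.Results.MP_a8fbd7_nt.ThreePrimesAsymptotic
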