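import Mathlib
import Pool.Agent.Helper34.EK.A
import Pool.Agent.Helper34.EK.B
import Pool.Agent.Helper34.EK.V4
import Pool.Agent.Helper34.EK.V5
import Pool.Agent.Helper34.EK.N2
import Pool.Agent.Helper34.EK.Q

/-!
# Asymptotic formulas for products of three primes very close to almost all squares and pronic numbers

The problem asks for the asymptotic number of primes in `[n ^ 2 - n, n ^ 2]` and in `[n ^ 2, n ^ 2 + n]`. We prove asymptotic
formulas with the expected main term for the products of three primes `q a p`, `q` in `(X ^ α, X ^ β]`, `a` in `(X ^ γ, X ^ δ]`,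
`1 - θ < α < β`, `β + δ < θ`, in the windows of length `H ≥ X ^ θ` next to the end points `n ^ 2 - n`, `n ^ 2`, `n ^ 2 + n` of the two
intervals, for any `θ > 1 / 2`, for all but at most `X / (log X) ^ A` of the `n` in `(X, 2 X]`, more generally in the windows
next to the values of quadratic polynomials. In fact the products `q a p` have the expected number for all the squarefree
integers `q` of `(X ^ α, X ^ β]` simultaneously, in the mean, with an error `H / (log X) ^ K`.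

Method. The products with a given `q` in the window of `x` correspond to the products `a p` in the window of length `H / q` next
to `(a x ^ 2 + b x + g) / q`. These short windows, for `x` in `(X, 2 X]` and `q` squarefree, are distributed evenly: the number of
the quadruples `(x, q, x', q')` whose short windows have a common point is of the expected size. So it is enough to know the
number of the products `a p` in almost all windows of length `X ^ η a`, which is obtained with Parseval's identity and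
Vinogradov's zero free region.
-/

set_option autoImplicit false

namespace Pool.Agent.Results.MP_a8fbd7_nt.ThreePrimesNearSquares
open Finset

/-- The primes `p` with `P < p ≤ R`. -/
noncomputable def primes (P R : ℝ) : Finset ℕ := (Ioc ⌊P⌋₊ ⌊R⌋₊).filter Nat.Prime

/-- The sum of `log p` over the pairs of primes `r`, `p` with `P < r ≤ R` and `y < q r p ≤ y + H`. -/
noncomputable def psi (P R : ℝ) (y : ℤ) (H q : ℕ) : ℝ :=
  ∑ r ∈ primes P R, ∑ p ∈ (Icc 1 (y.toNat + H)).filter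
    (fun p => p.Prime ∧ y < ((q * r * p : ℕ) : ℤ) ∧ ((q * r * p : ℕ) : ℤ) ≤ y + H), Real.log p

lemma psi_eq (P R : ℝ) {y : ℤ} (hy : 0 ≤ y) (H q : ℕ) : Pool.Agent.Helper34.EK.TT P R y.toNat H q = psi P R y H q := by
  unfold Pool.Agent.Helper34.EK.TT psi
  refine sum_congr rfl fun r _ => ?_
  congr 1
  apply filter_congr
  intro p _
  constructor
  · rintro ⟨h1, h2, h3⟩
    exact ⟨h1, by omega, by omega⟩
  · rintro ⟨h1, h2, h3⟩
    exact ⟨h1, by omega, by omega⟩

/-- Let `a ≥ 1`, `b` and `K₀` be integers and `1 - θ < α < β`, `0 < γ < δ`, `β + δ < θ` (so that `θ > 1 / 2`).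

1. For all `K`, `A` and all large `X`: for all `H` with `X ^ θ ≤ H ≤ X` and all integers `g` with `|g| ≤ K₀ H`, for all but at most
`X / (log X) ^ A` of the integers `x` in `(X, 2 X]` we have `∑_q |∑_{r, p} log p - (H / q) ∑_r 1 / r| ≤ H / (log X) ^ K`, where `q`
runs over the squarefree integers in `(X ^ α, X ^ β]`, `r` over the primes in `(X ^ γ, X ^ δ]` and `p` over the primes with
`a x ^ 2 + b x + g < q r p ≤ a x ^ 2 + b x + g + H`.

2. For all `τ > 0`, `A` and all large `X`: for all such `H` and `g`, for all but at most `X / (log X) ^ A` of the integers `x` in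
`(X, 2 X]` we have `|∑_{q, r, p} log p - H log (β / α) log (δ / γ)| ≤ τ H`, where the sum runs over the triples of primes `q` in
`(X ^ α, X ^ β]`, `r` in `(X ^ γ, X ^ δ]`, `p` with `a x ^ 2 + b x + g < q r p ≤ a x ^ 2 + b x + g + H`. -/
theorem result : ∀ (a : ℕ) (b : ℤ) (K₀ : ℕ), 1 ≤ a → ∀ α β γ δ θ : ℝ, 1 - θ < α → α < β → 0 < γ → γ < δ → β + δ < θ →
    (∀ K A : ℕ, ∃ X₀ : ℕ, ∀ X : ℕ, X₀ ≤ X → ∀ H : ℕ, (X : ℝ) ^ θ ≤ H → H ≤ X → ∀ g : ℤ, |g| ≤ K₀ * H →
      (Nat.card {x : ℕ | X < x ∧ x ≤ 2 * X ∧ (H : ℝ) / Real.log X ^ K <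
        ∑ q ∈ (Ioc ⌊(X : ℝ) ^ α⌋₊ ⌊(X : ℝ) ^ β⌋₊).filter Squarefree,
          |psi ((X : ℝ) ^ γ) ((X : ℝ) ^ δ) (a * (x : ℤ) ^ 2 + b * x + g) H q -
            H / q * ∑ r ∈ primes ((X : ℝ) ^ γ) ((X : ℝ) ^ δ), 1 / (r : ℝ)|} : ℝ) ≤ X / Real.log X ^ A) ∧
    (∀ τ : ℝ, 0 < τ → ∀ A : ℕ, ∃ X₀ : ℕ, ∀ X : ℕ, X₀ ≤ X → ∀ H : ℕ, (X : ℝ) ^ θ ≤ H → H ≤ X → ∀ g : ℤ, |g| ≤ K₀ * H →
      (Nat.card {x : ℕ | X < x ∧ x ≤ 2 * X ∧ τ * H <
        |∑ q ∈ primes ((X : ℝ) ^ α) ((X : ℝ) ^ β), psi ((X : ℝ) ^ γ) ((X : ℝ) ^ δ) (a * (x : ℤ) ^ 2 + b * x + g) H q -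
          H * (Real.log (β / α) * Real.log (δ / γ))|} : ℝ) ≤ X / Real.log X ^ A) := by
  intro a b K₀ ha α β γ δ θ h1 h2 h3 h4 h5
  have hN := Pool.Agent.Helper34.EK.nn (Pool.Agent.Helper34.EK.v' (Pool.Agent.Helper34.EK.v Pool.Agent.Helper34.EK.a1
    Pool.Agent.Helper34.EK.a2 Pool.Agent.Helper34.EK.b))
  have hQ := Pool.Agent.Helper34.EK.q1 hN
  have hQ2 := Pool.Agent.Helper34.EK.q2 hQ
  constructor
  · intro K A
    obtain ⟨X₀, hX₀⟩ := hQ a b K₀ ha α β γ δ θ h1 h2 h3 h4 h5 K A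
    refine ⟨max X₀ (2 * b.natAbs + K₀ + 1), ?_⟩
    intro X hX H hH hHX g hg
    have hX1 : X₀ ≤ X := (le_max_left _ _).trans hX
    have hX2 : 2 * b.natAbs + K₀ + 1 ≤ X := (le_max_right _ _).trans hX
    refine le_trans (le_of_eq ?_) (hX₀ X hX1 H hH hHX g hg)
    congr 2
    congr 1
    ext x
    rw [Set.mem_ofPred_eq, Set.mem_ofPred_eq]
    constructor
    · rintro ⟨h1, h2, h3⟩
      have hsz := Pool.Agent.Helper34.EK.fq_size (a := a) (b := b) (g := g) (K₀ := K₀) (X := X) (H := H) (x := x) ha hX2 hHX hg h1 h2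
      refine ⟨h1, h2, ?_⟩
      simp only [psi_eq _ _ hsz.1]
      exact h3
    · rintro ⟨h1, h2, h3⟩
      have hsz := Pool.Agent.Helper34.EK.fq_size (a := a) (b := b) (g := g) (K₀ := K₀) (X := X) (H := H) (x := x) ha hX2 hHX hg h1 h2
      simp only [psi_eq _ _ hsz.1] at h3
      exact ⟨h1, h2, h3⟩
  · intro τ hτ A
    obtain ⟨X₀, hX₀⟩ := hQ2 a b K₀ ha α β γ δ θ h1 h2 h3 h4 h5 τ hτ A
    refine ⟨max X₀ (2 * b.natAbs + K₀ + 1), ?_⟩
    intro X hX H hH hHX g hg
    have hX1 : X₀ ≤ X := (le_max_left _ _).trans hX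
    have hX2 : 2 * b.natAbs + K₀ + 1 ≤ X := (le_max_right _ _).trans hX
    refine le_trans (le_of_eq ?_) (hX₀ X hX1 H hH hHX g hg)
    congr 2
    congr 1
    ext x
    rw [Set.mem_ofPred_eq, Set.mem_ofPred_eq]
    constructor
    · rintro ⟨h1, h2, h3⟩
      have hsz := Pool.Agent.Helper34.EK.fq_size (a := a) (b := b) (g := g) (K₀ := K₀) (X := X) (H := H) (x := x) ha hX2 hHX hg h1 h2
      refine ⟨h1, h2, ?_⟩
      simp only [psi_eq _ _ hsz.1]
      exact h3
    · rintro ⟨h1, h2, h3⟩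
      have hsz := Pool.Agent.Helper34.EK.fq_size (a := a) (b := b) (g := g) (K₀ := K₀) (X := X) (H := H) (x := x) ha hX2 hHX hg h1 h2
      simp only [psi_eq _ _ hsz.1] at h3
      exact ⟨h1, h2, h3⟩

end Pool.Agent.Results.MP_a8fbd7_nt.ThreePrimesNearSquares
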